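import Mathlib
import Pool.Agent.Helper38.SqFree.Std

set_option autoImplicit false

namespace Pool.Agent.Results.MP_78b1ee_co.ExplicitLengths

/-- The list `w` is an arrangement of the numbers `1, .., n`. -/
def IsPermutation (n : ℕ) (w : List ℕ) : Prop := w.Perm (List.range' 1 n)

/-- Order isomorphic sequences: the same length and the same relative order of the entries. -/
def OrderIsomorphic (x y : List ℕ) : Prop :=
  x.length = y.length ∧
    ∀ i < x.length, ∀ j < x.length, (x.getD i 0 < x.getD j 0 ↔ y.getD i 0 < y.getD j 0)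

/-- `w` contains a square: a factor `x y` with order isomorphic halves `x`, `y` of length at
least `2`. -/
def HasSquare (w : List ℕ) : Prop :=
  ∃ u x y v : List ℕ, w = u ++ x ++ y ++ v ∧ 2 ≤ x.length ∧ OrderIsomorphic x y

/-- Insertion of the value `v` in the slot `p`: add `1` to every entry which is at least `v` and place
`v` after the first `p` entries. -/
def insertValue (w : List ℕ) (p v : ℕ) : List ℕ :=
  (w.map fun a => if v ≤ a then a + 1 else a).take p ++
    v :: (w.map fun a => if v ≤ a then a + 1 else a).drop p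

/-- `w` is an extremal square-free permutation of length `n`: it contains no square, and every
insertion (slot `p` from `0` to `n`, value `v` from `1` to `n + 1`) creates one. -/
def IsExtremal (n : ℕ) (w : List ℕ) : Prop :=
  IsPermutation n w ∧ ¬ HasSquare w ∧
    ∀ p v : ℕ, p ≤ n → 1 ≤ v → v ≤ n + 1 → HasSquare (insertValue w p v)

end Pool.Agent.Results.MP_78b1ee_co.ExplicitLengths

open Pool.Agent.Results.MP_78b1ee_co.ExplicitLengths

/-- For every `m ≥ 6` there is an extremal square-free permutation of length `2 ^ m - 11`; so there are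
arbitrarily long ones (Q1). -/
theorem Pool.Agent.Results.MP_78b1ee_co.ExplicitLengths.result :
    (∀ m : ℕ, 6 ≤ m → ∃ w : List ℕ, IsExtremal (2 ^ m - 11) w) ∧
    ∀ N : ℕ, ∃ n : ℕ, N ≤ n ∧ ∃ w : List ℕ, IsExtremal n w := by
  have key : ∀ m : ℕ, 6 ≤ m → ∃ w : List ℕ, IsExtremal (2 ^ m - 11) w := by
    intro m hm
    obtain ⟨h1, h2, h3⟩ := Pool.Agent.Helper38.SqFree.main m hm
    refine ⟨_, h1, ?_, ?_⟩
    · intro h
      exact h2 ((Pool.Agent.Helper38.SqFree.square_index _).1 h)
    · intro p v hp _ _
      exact (Pool.Agent.Helper38.SqFree.square_index _).2 (h3 p hp v)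
  refine ⟨key, fun N => ⟨2 ^ (N + 6) - 11, ?_, key (N + 6) (by omega)⟩⟩
  have h1 : N < 2 ^ N := Nat.lt_two_pow_self
  have h2 : 2 ^ (N + 6) = 64 * 2 ^ N := by ring
  omega
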